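import Pool.Agent.Lib.MP_6fca61_gt_W.SigPos
import Pool.Agent.Lib.MP_6fca61_gt_PC.Sig

/-!
# MP_6fca61_gt, bridge: the explicit data as smooth functions
-/

set_option autoImplicit false
set_option maxSynthPendingDepth 3

open scoped ContDiff Topology RealInnerProductSpace

namespace Pool.Agent.Lib.MP_6fca61_gt_W

open Pool.Agent.MP6fca61

noncomputable section

theorem inner_dt (u w : E3) : ⟪u, w⟫ = dt u w := by
  simp only [dt, PiLp.inner_apply, Fin.sum_univ_three, RCLike.inner_apply, conj_trivial]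
  ring

theorem pc_cr (u w : E3) : PC.cr u w = cr u w := rfl

/-- `Q` as a linear map. -/
def QL : E3 →L[ℝ] E3 :=
  LinearMap.toContinuousLinearMap
    { toFun := fun u => !₂[u 0, 0, -u 2]
      map_add' := fun u v => by ext i; fin_cases i <;> simp; ring
      map_smul' := fun c u => by ext i; fin_cases i <;> simp }

/-- `R` as a linear map. -/
def RL : E3 →L[ℝ] E3 :=
  LinearMap.toContinuousLinearMap
    { toFun := fun u => !₂[2 * u 1 - 4 * u 2, 2 * u 0 + 3 * u 1 + 2 * u 2, 2 * u 1 - 4 * u 0]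
      map_add' := fun u v => by ext i; fin_cases i <;> simp <;> ring
      map_smul' := fun c u => by ext i; fin_cases i <;> simp <;> ring }

/-- The vector `(1, 1, 1)`. -/
def vv : E3 := !₂[1, 1, 1]

theorem QL_apply (u : E3) : QL u = Qv u := rfl

theorem inner_QL (u w : E3) : ⟪QL u, w⟫ = qf u w := by
  rw [inner_dt, QL_apply]
  simp [dt, Qv, qf]
  ring

theorem inner_RL (u w : E3) : ⟪RL u, w⟫ = rf u w := by
  rw [inner_dt]
  simp [dt, RL, rf]
  ring

theorem inner_vv (u : E3) : ⟪vv, u⟫ = vf u := by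
  rw [inner_dt]
  simp [dt, vv, vf]

/-- The functional `⟪u, ·⟫`. -/
abbrev il (u : E3) : E3 →L[ℝ] ℝ := innerSL ℝ u

/-- The map `v ↦ ⟪u, v⟫ w`. -/
abbrev rk (u w : E3) : E3 →L[ℝ] E3 := (il u).smulRight w

theorem rk_apply (u w v : E3) : rk u w v = ⟪u, v⟫ • w := rfl

theorem contDiff_rk {f g : E3 → E3} (hf : ContDiff ℝ ∞ f) (hg : ContDiff ℝ ∞ g) :
    ContDiff ℝ ∞ fun x => rk (f x) (g x) :=
  ((innerSL ℝ).contDiff.comp hf).smulRight hg

/-- The derivative of `h` at `x`, as a functional. -/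
def hL (δ σ : ℝ) (x : E3) : E3 →L[ℝ] ℝ := (2 * δ) • il (QL x) + (δ ^ 3 * σ) • il vv

theorem hL_apply (δ σ : ℝ) (x Z : E3) : hL δ σ x Z = hd δ σ x Z := by
  simp only [hL, hd, add_apply, smul_apply,
    innerSL_apply_apply, smul_eq_mul, inner_QL, inner_vv]

/-- The connection form. -/
def aL (δ σ : ℝ) (x : E3) : E3 →L[ℝ] E3 :=
  (be δ σ x - 1) • PC.cr x - ((hL δ σ x).comp (PC.cr x)).smulRight x

theorem aL_apply (δ σ : ℝ) (x Z : E3) : aL δ σ x Z = af δ σ x Z := by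
  simp only [aL, af, sub_apply, smul_apply,
    ContinuousLinearMap.smulRight_apply, ContinuousLinearMap.comp_apply, hL_apply, pc_cr]

/-- The curvature of the connection. -/
def OmV (δ σ : ℝ) (x : E3) : E3 := (Real.exp (-(2 * psi δ x)) * Wf δ σ x) • x

/-- The form `S` as a linear map. -/
def SL (δ σ : ℝ) (x : E3) : E3 →L[ℝ] E3 :=
  (-(1 / 2) : ℝ) • rk x x + (δ ^ 3 * σ) • (rk x vv + rk vv x)
    + δ ^ 4 • (RL + δ • (rk (QL x) (RL x) + rk (RL x) (QL x))
      + δ ^ 2 • (⟪RL x, x⟫ • rk (QL x) (QL x)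
        + (1 / 2 * ⟪QL x, x⟫) • (rk (QL x) (RL x) + rk (RL x) (QL x))
        - (25 / 8 : ℝ) • (rk (QL x) (RL (QL x)) + rk (RL (QL x)) (QL x))
        + (13 / 4 : ℝ) • (rk (RL x) (QL (QL x)) + rk (QL (QL x)) (RL x))
        + (21 / 4 * ⟪RL (QL x), QL x⟫) • ContinuousLinearMap.id ℝ E3))

theorem inner_SL (δ σ : ℝ) (x u w : E3) : ⟪SL δ σ x u, w⟫ = Sf δ σ x u w := by
  simp only [SL, Sf, P1, P0, add_apply, sub_apply,
    smul_apply, rk_apply, inner_add_left, inner_sub_left,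
    real_inner_smul_left, inner_QL, inner_RL, inner_vv, ContinuousLinearMap.id_apply,
    ← QL_apply]
  simp only [inner_dt]

theorem contDiff_psi (δ : ℝ) : ContDiff ℝ ∞ (psi δ) := by
  have : psi δ = fun x => δ * ⟪QL x, x⟫ := by
    funext x
    rw [inner_QL]
    rfl
  rw [this]
  exact contDiff_const.mul (QL.contDiff.inner ℝ contDiff_id)

theorem contDiff_hh (δ σ : ℝ) : ContDiff ℝ ∞ (hh δ σ) := by
  have : hh δ σ = fun x => δ * ⟪QL x, x⟫ + δ ^ 3 * σ * ⟪vv, x⟫ := by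
    funext x
    rw [inner_QL, inner_vv]
    rfl
  rw [this]
  exact (contDiff_const.mul (QL.contDiff.inner ℝ contDiff_id)).add
    (contDiff_const.mul (contDiff_const.inner ℝ contDiff_id))

theorem contDiff_be (δ σ : ℝ) : ContDiff ℝ ∞ (be δ σ) :=
  (contDiff_hh δ σ).exp.div_const 2

theorem contDiff_Wf (δ σ : ℝ) : ContDiff ℝ ∞ (Wf δ σ) := by
  have : Wf δ σ = fun x => be δ σ x ^ 2 - 1 - 6 * psi δ x - 2 * δ ^ 3 * σ * ⟪vv, x⟫ := by
    funext x
    rw [inner_vv]
    rfl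
  rw [this]
  exact ((((contDiff_be δ σ).pow 2).sub contDiff_const).sub
    (contDiff_const.mul (contDiff_psi δ))).sub
    (contDiff_const.mul (contDiff_const.inner ℝ contDiff_id))

theorem contDiff_OmV (δ σ : ℝ) : ContDiff ℝ ∞ (OmV δ σ) :=
  (((contDiff_const.mul (contDiff_psi δ)).neg.exp).mul (contDiff_Wf δ σ)).smul contDiff_id

theorem contDiff_hL (δ σ : ℝ) : ContDiff ℝ ∞ (hL δ σ) :=
  (((innerSL ℝ).contDiff.comp QL.contDiff).const_smul _).add contDiff_const

theorem contDiff_aL (δ σ : ℝ) : ContDiff ℝ ∞ (aL δ σ) :=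
  (((contDiff_be δ σ).sub contDiff_const).smul PC.cr.contDiff).sub
    (((contDiff_hL δ σ).clm_comp PC.cr.contDiff).smulRight contDiff_id)

theorem contDiff_SL (δ σ : ℝ) : ContDiff ℝ ∞ (SL δ σ) := by
  have hi : ContDiff ℝ ∞ fun x : E3 => x := contDiff_id
  have hQ : ContDiff ℝ ∞ fun x : E3 => QL x := QL.contDiff
  have hR : ContDiff ℝ ∞ fun x : E3 => RL x := RL.contDiff
  have hRQ : ContDiff ℝ ∞ fun x : E3 => RL (QL x) := RL.contDiff.comp hQ
  have hQQ : ContDiff ℝ ∞ fun x : E3 => QL (QL x) := QL.contDiff.comp hQ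
  have hv : ContDiff ℝ ∞ fun _ : E3 => vv := contDiff_const
  refine (((contDiff_rk hi hi).const_smul _).add
    (((contDiff_rk hi hv).add (contDiff_rk hv hi)).const_smul _)).add ?_
  refine ContDiff.const_smul _ ((contDiff_const.add
    (((contDiff_rk hQ hR).add (contDiff_rk hR hQ)).const_smul _)).add ?_)
  refine ContDiff.const_smul _ ?_
  refine (((((hR.inner ℝ hi).smul (contDiff_rk hQ hQ)).add
    ((contDiff_const.mul (hQ.inner ℝ hi)).smul ((contDiff_rk hQ hR).add (contDiff_rk hR hQ)))).sub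
    (((contDiff_rk hQ hRQ).add (contDiff_rk hRQ hQ)).const_smul _)).add
    (((contDiff_rk hR hQQ).add (contDiff_rk hQQ hR)).const_smul _)).add ?_
  exact (contDiff_const.mul (hRQ.inner ℝ hQ)).smul contDiff_const

end

end Pool.Agent.Lib.MP_6fca61_gt_W
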