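import Pool.Agent.Lib.MP_6fca61_gt_I.Da

/-!
# MP_6fca61_gt, bridge: the derivatives of the explicit data
-/

set_option autoImplicit false
set_option maxSynthPendingDepth 3

open scoped ContDiff Topology RealInnerProductSpace

namespace Pool.Agent.Lib.MP_6fca61_gt_W

open Pool.Agent.MP6fca61

noncomputable section

theorem hasDerivAt_line {G H : Type*} [NormedAddCommGroup G] [NormedSpace ℝ G]
    [NormedAddCommGroup H] [NormedSpace ℝ H] {F : E3 → G} {x : E3}
    (hF : DifferentiableAt ℝ F x) (L : G →L[ℝ] H) (Z : E3) :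
    HasDerivAt (fun t : ℝ => L (F (x + t • Z))) (L (fderiv ℝ F x Z)) 0 := by
  have h1 : HasDerivAt (fun t : ℝ => x + t • Z) Z 0 := by
    simpa using ((hasDerivAt_id (0 : ℝ)).smul_const Z).const_add x
  have h2 : HasFDerivAt F (fderiv ℝ F x) (x + (0 : ℝ) • Z) := by
    simpa using hF.hasFDerivAt
  exact L.hasFDerivAt.comp_hasDerivAt 0 (h2.comp_hasDerivAt 0 h1)

theorem line_qf (x Z u : E3) : HasDerivAt (fun t : ℝ => qf (x + t • Z) u) (qf Z u) 0 := by
  have h : (fun t : ℝ => qf (x + t • Z) u) = fun t => qf x u + t * qf Z u := by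
    funext t
    simp [qf]
    ring
  rw [h]
  simpa using ((hasDerivAt_id (0 : ℝ)).mul_const (qf Z u)).const_add (qf x u)

theorem line_rf (x Z u : E3) : HasDerivAt (fun t : ℝ => rf (x + t • Z) u) (rf Z u) 0 := by
  have h : (fun t : ℝ => rf (x + t • Z) u) = fun t => rf x u + t * rf Z u := by
    funext t
    simp [rf]
    ring
  rw [h]
  simpa using ((hasDerivAt_id (0 : ℝ)).mul_const (rf Z u)).const_add (rf x u)

theorem line_dt (x Z u : E3) : HasDerivAt (fun t : ℝ => dt (x + t • Z) u) (dt Z u) 0 := by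
  have h : (fun t : ℝ => dt (x + t • Z) u) = fun t => dt x u + t * dt Z u := by
    funext t
    simp [dt]
    ring
  rw [h]
  simpa using ((hasDerivAt_id (0 : ℝ)).mul_const (dt Z u)).const_add (dt x u)

theorem line_vf (x Z : E3) : HasDerivAt (fun t : ℝ => vf (x + t • Z)) (vf Z) 0 := by
  have h : (fun t : ℝ => vf (x + t • Z)) = fun t => vf x + t * vf Z := by
    funext t
    simp [vf]
    ring
  rw [h]
  simpa using ((hasDerivAt_id (0 : ℝ)).mul_const (vf Z)).const_add (vf x)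

theorem line_Qq (x Z u : E3) :
    HasDerivAt (fun t : ℝ => qf (Qv (x + t • Z)) u) (qf (Qv Z) u) 0 := by
  have h : (fun t : ℝ => qf (Qv (x + t • Z)) u) = fun t => qf (Qv x) u + t * qf (Qv Z) u := by
    funext t
    simp [qf, Qv]
    ring
  rw [h]
  simpa using ((hasDerivAt_id (0 : ℝ)).mul_const (qf (Qv Z) u)).const_add (qf (Qv x) u)

theorem line_Qr (x Z u : E3) :
    HasDerivAt (fun t : ℝ => rf (Qv (x + t • Z)) u) (rf (Qv Z) u) 0 := by
  have h : (fun t : ℝ => rf (Qv (x + t • Z)) u) = fun t => rf (Qv x) u + t * rf (Qv Z) u := by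
    funext t
    simp [rf, Qv]
    ring
  rw [h]
  simpa using ((hasDerivAt_id (0 : ℝ)).mul_const (rf (Qv Z) u)).const_add (rf (Qv x) u)

theorem line_quad (x Z : E3) (f : E3 → E3 → ℝ) (c0 c1 c2 : ℝ)
    (h : ∀ t : ℝ, f (x + t • Z) (x + t • Z) = c0 + t * c1 + t ^ 2 * c2) :
    HasDerivAt (fun t : ℝ => f (x + t • Z) (x + t • Z)) c1 0 := by
  rw [funext h]
  have h1 := (((hasDerivAt_id (0 : ℝ)).mul_const c1).const_add c0).add
    (((hasDerivAt_id (0 : ℝ)).pow 2).mul_const c2)
  exact h1.congr_deriv (by simp)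

theorem line_qq (x Z : E3) :
    HasDerivAt (fun t : ℝ => qf (x + t • Z) (x + t • Z)) (2 * qf x Z) 0 :=
  line_quad x Z qf (qf x x) _ (qf Z Z) fun t => by
    simp [qf]
    ring

theorem line_rr (x Z : E3) :
    HasDerivAt (fun t : ℝ => rf (x + t • Z) (x + t • Z)) (2 * rf x Z) 0 :=
  line_quad x Z rf (rf x x) _ (rf Z Z) fun t => by
    simp [rf]
    ring

theorem line_rQQ (x Z : E3) :
    HasDerivAt (fun t : ℝ => rf (Qv (x + t • Z)) (Qv (x + t • Z))) (2 * rf (Qv x) (Qv Z)) 0 :=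
  line_quad x Z (fun a b => rf (Qv a) (Qv b)) (rf (Qv x) (Qv x)) _ (rf (Qv Z) (Qv Z)) fun t => by
    simp [rf, Qv]
    ring

theorem line_P1 (x Z u w : E3) :
    HasDerivAt (fun t : ℝ => P1 (x + t • Z) u w) (P1d x Z u w) 0 := by
  have h := ((line_qf x Z u).mul (line_rf x Z w)).add ((line_rf x Z u).mul (line_qf x Z w))
  refine h.congr_deriv ?_
  simp only [P1d, zero_smul, add_zero, Pi.mul_apply, Pi.add_apply, Pi.sub_apply, Pi.neg_apply,
    Pi.pow_apply]
  ring

theorem line_P1d (x Z u w : E3) :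
    HasDerivAt (fun t : ℝ => P1d (x + t • Z) Z u w) (P1dd Z u w) 0 := by
  have h := ((((line_rf x Z w).const_mul (qf Z u)).add ((line_qf x Z u).mul_const (rf Z w))).add
    ((line_qf x Z w).const_mul (rf Z u))).add ((line_rf x Z u).mul_const (qf Z w))
  refine h.congr_deriv ?_
  simp only [P1dd, zero_smul, add_zero, Pi.mul_apply, Pi.add_apply]
  ring

theorem line_P0 (x Z u w : E3) :
    HasDerivAt (fun t : ℝ => P0 (x + t • Z) u w) (P0d x Z u w) 0 := by
  have hq := (line_qf x Z u).mul (line_qf x Z w)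
  have hP := line_P1 x Z u w
  have h := ((((line_rr x Z).mul hq).add (((line_qq x Z).const_mul (1 / 2)).mul hP)).sub
    ((((line_qf x Z u).mul (line_Qr x Z w)).add ((line_Qr x Z u).mul (line_qf x Z w))).const_mul
      (25 / 8))).add
    ((((line_rf x Z u).mul (line_Qq x Z w)).add ((line_Qq x Z u).mul (line_rf x Z w))).const_mul
      (13 / 4))
  have h2 := h.add (((line_rQQ x Z).const_mul (21 / 4)).mul_const (dt u w))
  refine h2.congr_deriv ?_
  simp only [P0d, P1d, P1, zero_smul, add_zero, Pi.mul_apply, Pi.add_apply, Pi.sub_apply, Pi.neg_apply,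
    Pi.pow_apply]
  ring

theorem line_P0d (x Z u w : E3) :
    HasDerivAt (fun t : ℝ => P0d (x + t • Z) Z u w) (P0dd x Z u w) 0 := by
  have a1 := ((line_rf x Z Z).const_mul 2).mul ((line_qf x Z u).mul (line_qf x Z w))
  have a2 := (line_rr x Z).mul (((line_qf x Z w).const_mul (qf Z u)).add
    ((line_qf x Z u).mul_const (qf Z w)))
  have a3 := (line_qf x Z Z).mul (((line_qf x Z u).mul (line_rf x Z w)).add
    ((line_rf x Z u).mul (line_qf x Z w)))
  have a4 := ((line_qq x Z).const_mul (1 / 2)).mul (line_P1d x Z u w)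
  have a5 := (((((line_Qr x Z w).const_mul (qf Z u)).add
    ((line_qf x Z u).mul_const (rf (Qv Z) w))).add
    ((line_qf x Z w).const_mul (rf (Qv Z) u))).add
    ((line_Qr x Z u).mul_const (qf Z w))).const_mul (25 / 8)
  have a6 := (((((line_Qq x Z w).const_mul (rf Z u)).add
    ((line_rf x Z u).mul_const (qf (Qv Z) w))).add
    ((line_rf x Z w).const_mul (qf (Qv Z) u))).add
    ((line_Qq x Z u).mul_const (rf Z w))).const_mul (13 / 4)
  have a7 := ((line_Qr x Z (Qv Z)).const_mul (21 / 2)).mul_const (dt u w)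
  have h := (((((a1.add a2).add a3).add a4).sub a5).add a6).add a7
  refine h.congr_deriv ?_
  simp only [P0dd, P1d, P1dd, zero_smul, add_zero, Pi.mul_apply, Pi.add_apply, Pi.sub_apply, Pi.neg_apply,
    Pi.pow_apply]
  ring

theorem line_Sf (δ σ : ℝ) (x Z u w : E3) :
    HasDerivAt (fun t : ℝ => Sf δ σ (x + t • Z) u w) (Sd δ σ x Z u w) 0 := by
  have h := ((((line_dt x Z u).mul (line_dt x Z w)).const_mul (-(1 / 2))).add
    ((((line_dt x Z u).mul_const (vf w)).add ((line_dt x Z w).const_mul (vf u))).const_mul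
      (δ ^ 3 * σ))).add
    (((((line_P1 x Z u w).const_mul δ).const_add (rf u w)).add
      ((line_P0 x Z u w).const_mul (δ ^ 2))).const_mul (δ ^ 4))
  refine h.congr_deriv ?_
  simp only [Sd, zero_smul, add_zero, Pi.mul_apply, Pi.add_apply]

theorem line_Sd (δ σ : ℝ) (x Z u w : E3) :
    HasDerivAt (fun t : ℝ => Sd δ σ (x + t • Z) Z u w) (Sdd δ x Z u w) 0 := by
  have h := ((((line_dt x Z w).const_mul (dt Z u)).add
    ((line_dt x Z u).mul_const (dt Z w))).const_mul (-(1 / 2))).add_const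
    (δ ^ 3 * σ * (dt Z u * vf w + vf u * dt Z w))
  have h2 := h.add ((((line_P1d x Z u w).const_mul δ).add
    ((line_P0d x Z u w).const_mul (δ ^ 2))).const_mul (δ ^ 4))
  refine h2.congr_deriv ?_
  simp only [Sdd, zero_smul, add_zero, Pi.mul_apply, Pi.add_apply]
  ring

/-- The functional `T ↦ ⟪w, T u⟫`. -/
def evL (u w : E3) : (E3 →L[ℝ] E3) →L[ℝ] ℝ := (il w).comp (ContinuousLinearMap.apply ℝ E3 u)

theorem evL_apply (u w : E3) (T : E3 →L[ℝ] E3) : evL u w T = ⟪T u, w⟫ := by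
  rw [real_inner_comm]
  rfl

theorem fderiv_SL (δ σ : ℝ) (x Z u w : E3) : ⟪fderiv ℝ (SL δ σ) x Z u, w⟫ = Sd δ σ x Z u w := by
  have h := hasDerivAt_line ((contDiff_SL δ σ).differentiable (by simp) x) (evL u w) Z
  simp only [evL_apply, inner_SL] at h
  exact h.unique (line_Sf δ σ x Z u w)

theorem fderiv2_SL (δ σ : ℝ) (x Z u w : E3) :
    ⟪fderiv ℝ (fderiv ℝ (SL δ σ)) x Z Z u, w⟫ = Sdd δ x Z u w := by
  have hd : ContDiff ℝ 1 (fderiv ℝ (SL δ σ)) :=
    (contDiff_SL δ σ).fderiv_right (m := 1) (by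
      norm_cast)
  have h := hasDerivAt_line (hd.differentiable (by simp) x)
    ((evL u w).comp (ContinuousLinearMap.apply ℝ (E3 →L[ℝ] E3) Z)) Z
  simp only [ContinuousLinearMap.comp_apply, ContinuousLinearMap.apply_apply, evL_apply,
    fderiv_SL] at h
  exact h.unique (line_Sd δ σ x Z u w)

theorem fderiv_psi (δ : ℝ) (x Z : E3) : fderiv ℝ (psi δ) x Z = 2 * δ * qf x Z := by
  have h := hasDerivAt_line ((contDiff_psi δ).differentiable (by simp) x)
    (ContinuousLinearMap.id ℝ ℝ) Z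
  have h2 := (line_qq x Z).const_mul δ
  have h3 := h.unique h2
  simp only [ContinuousLinearMap.id_apply] at h3
  rw [h3]
  ring

theorem fderiv2_psi (δ : ℝ) (x Z : E3) :
    fderiv ℝ (fderiv ℝ (psi δ)) x Z Z = 2 * δ * qf Z Z := by
  have hd : ContDiff ℝ 1 (fderiv ℝ (psi δ)) :=
    (contDiff_psi δ).fderiv_right (m := 1) (by
      norm_cast)
  have h := hasDerivAt_line (hd.differentiable (by simp) x)
    (ContinuousLinearMap.apply ℝ ℝ Z) Z
  simp only [ContinuousLinearMap.apply_apply, fderiv_psi] at h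
  exact h.unique ((line_qf x Z Z).const_mul (2 * δ))

theorem line_be (δ σ : ℝ) (x Z : E3) :
    HasDerivAt (fun t : ℝ => be δ σ (x + t • Z)) (be δ σ x * hd δ σ x Z) 0 := by
  have h := ((((line_qq x Z).const_mul δ).add ((line_vf x Z).const_mul (δ ^ 3 * σ))).exp).div_const
    2
  refine h.congr_deriv ?_
  simp only [be, hh, hd, zero_smul, add_zero, Pi.mul_apply, Pi.add_apply, Pi.sub_apply, Pi.neg_apply,
    Pi.pow_apply]
  ring

theorem line_Wf (δ σ : ℝ) (x Z : E3) :
    HasDerivAt (fun t : ℝ => Wf δ σ (x + t • Z)) (Wd δ σ x Z) 0 := by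
  have h := ((((line_be δ σ x Z).pow 2).sub_const 1).sub
    (((line_qq x Z).const_mul δ).const_mul 6)).sub ((line_vf x Z).const_mul (2 * δ ^ 3 * σ))
  refine h.congr_deriv ?_
  simp only [Wd, zero_smul, add_zero, Pi.mul_apply, Pi.add_apply, Pi.sub_apply, Pi.neg_apply,
    Pi.pow_apply]
  ring

theorem fderiv_OmV (δ σ : ℝ) (x Z : E3) :
    fderiv ℝ (OmV δ σ) x Z =
      (Real.exp (-(2 * psi δ x)) * (Wd δ σ x Z - 2 * (2 * δ * qf x Z) * Wf δ σ x)) • x +
        (Real.exp (-(2 * psi δ x)) * Wf δ σ x) • Z := by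
  have h := hasDerivAt_line ((contDiff_OmV δ σ).differentiable (by simp) x)
    (ContinuousLinearMap.id ℝ E3) Z
  have h1 : HasDerivAt (fun t : ℝ => Real.exp (-(2 * psi δ (x + t • Z))) * Wf δ σ (x + t • Z))
      (Real.exp (-(2 * psi δ x)) * (Wd δ σ x Z - 2 * (2 * δ * qf x Z) * Wf δ σ x)) 0 := by
    have h4 := ((((line_qq x Z).const_mul δ).const_mul 2).neg.exp).mul (line_Wf δ σ x Z)
    refine h4.congr_deriv ?_
    simp only [psi, Pi.neg_apply, zero_smul, add_zero]
    ring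
  have h0 : HasDerivAt (fun t : ℝ => x + t • Z) Z 0 := by
    simpa using ((hasDerivAt_id (0 : ℝ)).smul_const Z).const_add x
  have h2 := h1.smul h0
  have h3 := h.unique h2
  simp only [ContinuousLinearMap.id_apply, zero_smul, add_zero] at h3
  rw [h3, add_comm]

end

end Pool.Agent.Lib.MP_6fca61_gt_W
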